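import Pool.Agent.Helper61.LF.Goals

/-!
# PROJECT LF (MP_c65973_gt), packet FGF: a field which is finitely generated as a ring is finite
-/

set_option autoImplicit false

namespace Pool.Agent.Helper66.LF.FGF

universe u

theorem jac : IsJacobsonRing ℤ := by
  rw [isJacobsonRing_iff_prime_eq]
  intro P hP
  by_cases h : P = ⊥
  · subst h
    refine le_antisymm (fun x hx => ?_) Ideal.le_jacobson
    rw [Ideal.mem_jacobson_bot] at hx
    have h1 := hx x
    rw [Int.isUnit_iff] at h1
    rw [Ideal.mem_bot]
    by_contra h2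
    have h3 : 0 < x * x := mul_self_pos.2 h2
    omega
  · have := Ideal.IsPrime.isMaximal hP h
    exact Ideal.jacobson_eq_self_of_isMaximal

theorem t : Pool.Agent.Helper61.LF.S_FGF.{u} := by
  intro k _ s hs hk
  have hj := jac
  have hf : Algebra.FiniteType ℤ k := ⟨⟨hs.toFinset, by rw [Set.Finite.coe_toFinset]; exact hk⟩⟩
  have hm : Module.Finite ℤ k := finite_of_finite_type_of_isJacobsonRing ℤ k
  by_cases hi : Function.Injective (algebraMap ℤ k)
  · have h1 : IsField ℤ := isField_of_isIntegral_of_isField hi (Field.toIsField k)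
    exact absurd h1 Int.not_isField
  · rw [injective_iff_map_eq_zero] at hi
    push Not at hi
    obtain ⟨n, hn, hn0⟩ := hi
    refine Module.finite_of_fg_torsion k fun x => ?_
    refine ⟨⟨n, mem_nonZeroDivisors_of_ne_zero hn0⟩, ?_⟩
    change n • x = 0
    rw [zsmul_eq_mul]
    have h2 : (n : k) = 0 := by simpa using hn
    rw [h2, zero_mul]

end Pool.Agent.Helper66.LF.FGF
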