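import Pool.Agent.Helper73.LF.GoalsB

/-!
# LF-FIELD: a number field with conjugates of all `x_i` at every infinite place
-/

set_option autoImplicit false

open Finset NumberField

namespace Pool.Agent.Helper66.LF

open Pool.Agent.Helper73.LF

theorem field : Pool.Agent.Helper73.LF.GField := by
  intro m x hx
  let f : Polynomial ℚ := ∏ i, minpoly ℚ (x i)
  have hf0 : f ≠ 0 := Finset.prod_ne_zero_iff.2 fun i _ => minpoly.ne_zero (hx i).isIntegral
  let _ : CharZero f.SplittingField := charZero_of_injective_algebraMap
    (algebraMap ℚ f.SplittingField).injective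
  let _ : NumberField f.SplittingField := { }
  have key : ∀ (v : InfinitePlace f.SplittingField) (i : Fin m), ∃ r : f.SplittingField,
      v.embedding r = ((x i : ℝ) : ℂ) := by
    intro v i
    have hs : (f.map (algebraMap ℚ f.SplittingField)).Splits := Polynomial.SplittingField.splits f
    have h1 := Polynomial.Splits.roots_map hs v.embedding
    have h2 : ((x i : ℝ) : ℂ) ∈
        ((f.map (algebraMap ℚ f.SplittingField)).map v.embedding).roots := by
      rw [Polynomial.map_map, Polynomial.mem_roots (Polynomial.map_ne_zero hf0),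
        Polynomial.IsRoot.def, Polynomial.eval_map]
      have h3 : v.embedding.comp (algebraMap ℚ f.SplittingField) =
          (Complex.ofRealHom : ℝ →+* ℂ).comp (algebraMap ℚ ℝ) := Subsingleton.elim _ _
      rw [h3]
      have h4 : ((x i : ℝ) : ℂ) = Complex.ofRealHom (x i) := rfl
      have h5 : f.eval₂ (algebraMap ℚ ℝ) (x i) = 0 := by
        change (∏ i, minpoly ℚ (x i)).eval₂ (algebraMap ℚ ℝ) (x i) = 0
        rw [Polynomial.eval₂_finsetProd]
        exact Finset.prod_eq_zero (Finset.mem_univ i) (minpoly.aeval ℚ (x i))
      rw [h4, ← Polynomial.hom_eval₂, h5, map_zero]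
    rw [h1, Multiset.mem_map] at h2
    obtain ⟨r, _, hr⟩ := h2
    exact ⟨r, hr⟩
  choose r hr using key
  exact ⟨f.SplittingField, inferInstance, inferInstance, r, hr⟩

end Pool.Agent.Helper66.LF
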